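import Mathlib
import Pool.Agent.V11103.Thick

set_option autoImplicit false

namespace Pool.Agent.Results.MP_df75a5_an.NotThick

open Pool.Agent.V11103

/-- For every irrational `α` there is a set `E` of positive upper density such that
`R_{f₁}(E) ∩ R_{f₂}(E)` is not thick, `f₁(t) = t^{3/2}`, `f₂(t) = α t^{3/2} + t`. -/
theorem result : ∀ α : ℝ, Irrational α →
    ∃ E : Set ℕ, (∀ n ∈ E, 1 ≤ n) ∧ 0 < upperDensity E ∧
      ¬ Thick (returnSet (fun t => t ^ (3 / 2 : ℝ)) E ∩
        returnSet (fun t => α * t ^ (3 / 2 : ℝ) + t) E) :=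
  fun α hα => not_thick α hα

end Pool.Agent.Results.MP_df75a5_an.NotThick
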